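import Pool.Agent.Lib.MP_830418_an.Diss.Main
import Pool.Agent.Lib.MP_830418_an.Full.Iface

/-!
Problem MP_830418_an, Case A (almost invariant probability under all products of letters):
the cube instance of the dissipation inequality, for `Vop` with the 2 x 2 Hadamard matrix.
-/

open Finset

namespace Pool.Agent.C1

open Pool.Agent.PC Pool.Agent.PI

/-- the matrix `[[1,1],[1,-1]]` -/
noncomputable def u2 : Fin 2 → Fin 2 → ℂ := fun i j => if i = 1 ∧ j = 1 then -1 else 1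

theorem had_u2 : Had u2 := by
  refine ⟨fun i j => ?_, fun i i' => ?_⟩
  · unfold u2
    split_ifs <;> simp
  · unfold u2
    fin_cases i <;> fin_cases i' <;> simp [Fin.sum_univ_two] <;> norm_num

variable {G : Type} [Group G]

/-- projection to the component `0` -/
def E0 : Vec G 2 →ₗ[ℂ] Vec G 2 where
  toFun φ := fun x j => if j = 0 then φ x 0 else 0
  map_add' φ ψ := by
    funext x j
    by_cases h : j = 0 <;> simp [h]
  map_smul' a φ := by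
    funext x j
    by_cases h : j = 0 <;> simp [h]

theorem E0_apply (φ : Vec G 2) (x : G) (j : Fin 2) : E0 φ x j = if j = 0 then φ x 0 else 0 := rfl

theorem FS.E0 {φ : Vec G 2} (hφ : FS φ) : FS (E0 φ) :=
  FS.of_subset hφ fun x hx => by
    simp only [Function.mem_support, not_not] at hx
    funext j
    simp [E0_apply, hx]

/-- `(1 + y_0)(1 + y_1) ... (1 + y_{M-1})` -/
def Df {N : ℕ} (y : ℕ → G) : ℕ → (Vec G N →ₗ[ℂ] Vec G N)
  | 0 => LinearMap.id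
  | M + 1 => (Df y M).comp (LinearMap.id + tr (y M))

/-- the adjoint -/
def Af {N : ℕ} (y : ℕ → G) : ℕ → (Vec G N →ₗ[ℂ] Vec G N)
  | 0 => LinearMap.id
  | M + 1 => (LinearMap.id + tr (y M)⁻¹).comp (Af y M)

theorem Df_succ {N : ℕ} (y : ℕ → G) (M : ℕ) (φ : Vec G N) :
    Df y (M + 1) φ = Df y M (φ + tr (y M) φ) := rfl

theorem Af_succ {N : ℕ} (y : ℕ → G) (M : ℕ) (φ : Vec G N) :
    Af y (M + 1) φ = Af y M φ + tr (y M)⁻¹ (Af y M φ) := rfl

theorem FS.Df {N : ℕ} {φ : Vec G N} (hφ : FS φ) (y : ℕ → G) (M : ℕ) : FS (Df y M φ) := by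
  induction M generalizing φ with
  | zero => exact hφ
  | succ M ih => exact ih (hφ.add (hφ.tr _))

theorem FS.Af {N : ℕ} {φ : Vec G N} (hφ : FS φ) (y : ℕ → G) (M : ℕ) : FS (Af y M φ) := by
  induction M with
  | zero => exact hφ
  | succ M ih => exact ih.add (ih.tr _)

theorem Df_comp {N N' : ℕ} (y : ℕ → G) (M : ℕ) (j : Fin N) (j' : Fin N') :
    ∀ (φ : Vec G N) (ψ : Vec G N'), (∀ x, φ x j = ψ x j') → ∀ x, Df y M φ x j = Df y M ψ x j' := by
  induction M with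
  | zero => intro φ ψ h x; exact h x
  | succ M ih =>
    intro φ ψ h x
    rw [Df_succ, Df_succ]
    refine ih _ _ (fun x => ?_) x
    show φ x j + φ ((y M)⁻¹ * x) j = ψ x j' + ψ ((y M)⁻¹ * x) j'
    rw [h, h]

theorem Df_zero {N : ℕ} (y : ℕ → G) (M : ℕ) (j : Fin N) :
    ∀ (φ : Vec G N), (∀ x, φ x j = 0) → ∀ x, Df y M φ x j = 0 := by
  induction M with
  | zero => intro φ h x; exact h x
  | succ M ih =>
    intro φ h x
    rw [Df_succ]
    refine ih _ (fun x => ?_) x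
    show φ x j + φ ((y M)⁻¹ * x) j = 0
    rw [h, h, add_zero]

theorem Df_Dp {N : ℕ} (y : ℕ → G) (M : ℕ) (z : Vec G N) : ∀ s ≤ M,
    Df y (M - s) (DS.Dp (fun s => (tr (y (M - 1 - s)) : Vec G N →ₗ[ℂ] Vec G N)) s z) =
      Df y M z := by
  intro s
  induction s with
  | zero => intro _; rfl
  | succ s ih =>
    intro hs
    rw [← ih (by omega)]
    have e : M - s = (M - (s + 1)) + 1 := by omega
    rw [e, Df_succ]
    have e2 : M - (s + 1) = M - 1 - s := by omega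
    rw [e2]
    rfl

/-- the vector `(a_s, b_s)` -/
noncomputable def pk (S : ℕ → (Vec G 1 →ₗ[ℂ] Vec G 1)) (z0 z1 : Vec G 1) (s : ℕ) : Vec G 2 :=
  fun x j => (((Real.sqrt (2 : ℕ) : ℝ) : ℂ))⁻¹ ^ (s + 1) *
    (if j = 0 then (DS.ab S z0 z1 s).1 x 0 else (DS.ab S z0 z1 s).2 x 0)

theorem Vop_pk (y : ℕ → G) (M : ℕ) (φ : Vec G 2) (z0 z1 : Vec G 1) (hz0 : ∀ x, z0 x 0 = φ x 0)
    (hz1 : ∀ x, z1 x 0 = φ ((y M)⁻¹ * x) 1) : ∀ s ≤ M,
    Vop u2 (lt y) (M + 1) φ = Vop u2 (lt y) (M - s)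
      (pk (fun s => (tr (y (M - 1 - s)) : Vec G 1 →ₗ[ℂ] Vec G 1)) z0 z1 s) := by
  intro s
  induction s with
  | zero =>
    intro _
    rw [Vop_succ, Nat.sub_zero]
    congr 1
    funext x j
    rw [Rop_apply, Fin.sum_univ_two]
    fin_cases j
    · simp [u2, lt, pk, DS.ab, hz0, hz1]
    · simp [u2, lt, pk, DS.ab, hz0, hz1, sub_eq_add_neg]
  | succ s ih =>
    intro hs
    rw [ih (by omega)]
    have e : M - s = (M - (s + 1)) + 1 := by omega
    rw [e, Vop_succ]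
    congr 1
    funext x j
    rw [Rop_apply, Fin.sum_univ_two]
    have e2 : M - (s + 1) = M - 1 - s := by omega
    rw [e2]
    fin_cases j
    · simp [u2, lt, pk, DS.ab]
      ring
    · simp [u2, lt, pk, DS.ab]
      ring

theorem nrm_pk {p : ℝ} (hp : 0 < p) (S : ℕ → (Vec G 1 →ₗ[ℂ] Vec G 1)) (z0 z1 : Vec G 1) (s : ℕ)
    (h1 : FS (DS.ab S z0 z1 s).1) (h2 : FS (DS.ab S z0 z1 s).2) :
    nrm p (pk S z0 z1 s) = ((Real.sqrt (2 : ℕ))⁻¹ ^ (s + 1)) ^ p *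
      (nrm p (DS.ab S z0 z1 s).1 + nrm p (DS.ab S z0 z1 s).2) := by
  have hs1 := nrm_summable hp h1
  have hs2 := nrm_summable hp h2
  unfold nrm
  rw [← hs1.tsum_add hs2, ← tsum_mul_left]
  congr 1
  funext x
  rw [Fin.sum_univ_two, Fin.sum_univ_one, Fin.sum_univ_one]
  have hn : ‖((((Real.sqrt (2 : ℕ) : ℝ) : ℂ))⁻¹ ^ (s + 1))‖ = (Real.sqrt (2 : ℕ))⁻¹ ^ (s + 1) := by
    rw [norm_pow, norm_inv, Complex.norm_real, Real.norm_eq_abs, abs_of_nonneg (Real.sqrt_nonneg _)]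
  have hnn : 0 ≤ (Real.sqrt (2 : ℕ))⁻¹ ^ (s + 1) := by positivity
  unfold pk
  simp only [if_true, one_ne_zero, if_false, norm_mul, hn]
  rw [Real.mul_rpow hnn (norm_nonneg _), Real.mul_rpow hnn (norm_nonneg _)]
  ring

/-- windows: all translations -/
theorem win_tr {p : ℝ} (hp : 0 < p) (M : ℕ) (g : ℕ → G) :
    DS.Win p M (fun s => (tr (g s) : Vec G 1 →ₗ[ℂ] Vec G 1)) LinearMap.id
      (fun _ => Set.range fun h : G => (tr h : Vec G 1 →ₗ[ℂ] Vec G 1)) where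
  one := by
    refine ⟨1, LinearMap.ext fun φ => ?_⟩
    funext x
    simp
  down := fun s _ u hu => hu
  comp := by
    rintro s _ _ ⟨h, rfl⟩
    refine ⟨h * g s, LinearMap.ext fun φ => ?_⟩
    funext x
    simp [mul_assoc]
  fs := by
    rintro s _ _ ⟨h, rfl⟩ φ hφ
    exact FS.tr (G := G) hφ h
  fsS := fun s _ φ hφ => FS.tr (G := G) hφ _
  le := by
    rintro s _ _ ⟨h, rfl⟩ φ hφ
    exact (nrm_tr p h φ).le
  P_le := by
    rintro s _ _ ⟨h, rfl⟩ φ hφ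
    exact (nrm_tr p h φ).ge
  S_le := by
    rintro s _ ⟨h, rfl⟩ r _ _ φ hφ
    exact ((nrm_tr p h _).trans (nrm_tr p _ φ)).le.trans (nrm_tr p h φ).ge

/-- the normalisation -/
noncomputable def lam (p : ℝ) (M : ℕ) : ℝ := ((2 : ℝ) ^ (M + 1)) ^ ((2 - p) / (2 * p))

theorem lam_pos (p : ℝ) (M : ℕ) : 0 < lam p M := Real.rpow_pos_of_pos (by positivity) _

theorem lam_pow {p : ℝ} (hp : 0 < p) (M : ℕ) : lam p M ^ p = ((2 : ℝ) ^ (M + 1)) ^ (1 - p / 2) := by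
  unfold lam
  rw [← Real.rpow_mul (by positivity)]
  congr 1
  field_simp

/-- the exact value of the norm of `lam⁻¹ V φ` -/
theorem nrm_V {p : ℝ} (hp : 0 < p) (y : ℕ → G) (M : ℕ) (φ : Vec G 2) (hφ : FS φ)
    (z0 z1 : Vec G 1) (hz0 : ∀ x, z0 x 0 = φ x 0) (hz1 : ∀ x, z1 x 0 = φ ((y M)⁻¹ * x) 1)
    (h0 : FS z0) (h1 : FS z1) :
    nrm p ((((lam p M : ℝ) : ℂ))⁻¹ • Vop u2 (lt y) (M + 1) φ) =
      (nrm p (DS.ab (fun s => (tr (y (M - 1 - s)) : Vec G 1 →ₗ[ℂ] Vec G 1)) z0 z1 M).1 +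
       nrm p (DS.ab (fun s => (tr (y (M - 1 - s)) : Vec G 1 →ₗ[ℂ] Vec G 1)) z0 z1 M).2) /
        2 ^ (M + 1) := by
  have hfs := DS.ab_fs (win_tr hp M (fun s => y (M - 1 - s))) h0 h1 M le_rfl
  rw [nrm_smul, Vop_pk y M φ z0 z1 hz0 hz1 M le_rfl, Nat.sub_self, Vop_zero,
    nrm_pk hp _ _ _ _ hfs.1 hfs.2, norm_inv, Complex.norm_real, Real.norm_eq_abs,
    abs_of_nonneg (lam_pos p M).le, Real.inv_rpow (lam_pos p M).le, lam_pow hp]
  have e1 : ((Real.sqrt (2 : ℕ))⁻¹ ^ (M + 1)) ^ p = (((2 : ℝ) ^ (M + 1)) ^ (p / 2))⁻¹ := by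
    rw [inv_pow, Real.inv_rpow (by positivity)]
    congr 1
    rw [Real.sqrt_eq_rpow, ← Real.rpow_natCast, ← Real.rpow_mul (by positivity),
      ← Real.rpow_mul (by positivity), ← Real.rpow_natCast, ← Real.rpow_mul (by positivity)]
    push_cast
    congr 1
    ring
  have e2 : (2 : ℝ) ^ (M + 1) = ((2 : ℝ) ^ (M + 1)) ^ (1 - p / 2) * ((2 : ℝ) ^ (M + 1)) ^ (p / 2) := by
    rw [← Real.rpow_add (by positivity)]
    simp
  rw [e1, ← mul_assoc, ← mul_inv, ← e2]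
  ring

end Pool.Agent.C1
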