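import Pool.Agent.Lib.MP_830418_an.C1.Cube

/-!
Problem MP_830418_an, Case A: the test vector, and the matrix representation of the chain.
-/

open Finset

namespace Pool.Agent.C1

open Pool.Agent.PC Pool.Agent.PI

variable {G : Type} [Group G]

/-- the dissipation inequality in the form needed for the chain -/
theorem cube {p : ℝ} (hp : 1 < p) (hp2 : p < 2) (y : ℕ → G) (M : ℕ) (φ : Vec G 2) (hφ : FS φ) :
    nrm p (((Df y M).comp E0) φ) ≤ 2 ^ (p - 1) * 2 ^ M * nrm p φ +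
      2 ^ (p - 1) * (DS.Cp p * ((2 : ℝ) ^ M) ^ p) *
        (nrm p φ - nrm p ((((lam p M : ℝ) : ℂ))⁻¹ • Vop u2 (lt y) (M + 1) φ)) := by
  have hp0 : 0 < p := by linarith
  set z0 : Vec G 1 := fun x _ => φ x 0 with hz0
  set z1 : Vec G 1 := fun x _ => φ ((y M)⁻¹ * x) 1 with hz1
  have f0 : FS z0 := FS.of_subset hφ fun x hx => by
    simp only [Function.mem_support, not_not] at hx
    funext i
    simp [hz0, hx]
  have f1 : FS z1 := FS.of_subset (finite_preimage_mul (y M)⁻¹ hφ) fun x hx => by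
    simp only [Set.mem_setOf_eq, Function.mem_support, not_not] at hx
    funext i
    simp [hz1, hx]
  have hsum : nrm p z0 + nrm p z1 = nrm p φ := by
    have e1 : nrm p z1 = ∑' x, ‖φ x 1‖ ^ p := by
      unfold nrm
      simp only [Fin.sum_univ_one, hz1]
      exact (Equiv.mulLeft (y M)⁻¹).tsum_eq (fun x => ‖φ x 1‖ ^ p)
    have e0 : nrm p z0 = ∑' x, ‖φ x 0‖ ^ p := by
      unfold nrm
      simp only [Fin.sum_univ_one, hz0]
    have s0 : Summable fun x => ‖φ x 0‖ ^ p := by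
      have := nrm_summable hp0 f0
      simpa only [Fin.sum_univ_one, hz0] using this
    have s1 : Summable fun x => ‖φ x 1‖ ^ p := by
      refine summable_of_finite_support (hφ.subset fun x hx => ?_)
      intro h
      apply hx
      have h' : φ x = 0 := h
      simp [h', hp0.ne']
    rw [e0, e1, ← s0.tsum_add s1]
    unfold nrm
    simp only [Fin.sum_univ_two]
  have hd := DS.diss hp hp2 (win_tr hp0 M (fun s => y (M - 1 - s))) f0 f1
  have hV := nrm_V hp0 y M φ hφ z0 z1 (fun x => rfl) (fun x => rfl) f0 f1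
  have hD : nrm p (((Df y M).comp E0) φ) =
      nrm p (DS.Dp (fun s => (tr (y (M - 1 - s)) : Vec G 1 →ₗ[ℂ] Vec G 1)) M z0) := by
    have e := Df_Dp y M z0 M le_rfl
    rw [Nat.sub_self] at e
    have e' : DS.Dp (fun s => (tr (y (M - 1 - s)) : Vec G 1 →ₗ[ℂ] Vec G 1)) M z0 =
        Df y M z0 := e
    rw [e']
    unfold nrm
    congr 1
    funext x
    rw [Fin.sum_univ_two, Fin.sum_univ_one]
    have h0 : ((Df y M).comp E0) φ x 0 = Df y M z0 x 0 :=
      Df_comp y M 0 0 (E0 φ) z0 (fun x => rfl) x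
    have h1 : ((Df y M).comp E0) φ x 1 = 0 :=
      Df_zero y M 1 (E0 φ) (fun x => by simp [E0_apply]) x
    rw [h0, h1, norm_zero, Real.zero_rpow hp0.ne', add_zero]
  rw [hD, hV]
  have hd' : nrm p (DS.Dp (fun s => (tr (y (M - 1 - s)) : Vec G 1 →ₗ[ℂ] Vec G 1)) M z0) ≤
      2 ^ (p - 1) * (2 ^ M * (nrm p z0 + nrm p z1) +
      DS.Cp p * ((2 : ℝ) ^ M) ^ p * (nrm p z0 + nrm p z1 -
        (nrm p (DS.ab (fun s => (tr (y (M - 1 - s)) : Vec G 1 →ₗ[ℂ] Vec G 1)) z0 z1 M).1 +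
         nrm p (DS.ab (fun s => (tr (y (M - 1 - s)) : Vec G 1 →ₗ[ℂ] Vec G 1)) z0 z1 M).2) /
          2 ^ (M + 1))) := hd
  rw [hsum] at hd'
  refine hd'.trans (le_of_eq ?_)
  ring

/-- `V` is a contraction -/
theorem cube_le {p : ℝ} (hp : 1 < p) (hp2 : p < 2) (y : ℕ → G) (M : ℕ) (φ : Vec G 2) (hφ : FS φ) :
    nrm p ((((lam p M : ℝ) : ℂ))⁻¹ • Vop u2 (lt y) (M + 1) φ) ≤ nrm p φ := by
  have hp0 : 0 < p := by linarith
  set z0 : Vec G 1 := fun x _ => φ x 0 with hz0
  set z1 : Vec G 1 := fun x _ => φ ((y M)⁻¹ * x) 1 with hz1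
  have f0 : FS z0 := FS.of_subset hφ fun x hx => by
    simp only [Function.mem_support, not_not] at hx
    funext i
    simp [hz0, hx]
  have f1 : FS z1 := FS.of_subset (finite_preimage_mul (y M)⁻¹ hφ) fun x hx => by
    simp only [Set.mem_setOf_eq, Function.mem_support, not_not] at hx
    funext i
    simp [hz1, hx]
  have hsum : nrm p z0 + nrm p z1 = nrm p φ := by
    have e1 : nrm p z1 = ∑' x, ‖φ x 1‖ ^ p := by
      unfold nrm
      simp only [Fin.sum_univ_one, hz1]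
      exact (Equiv.mulLeft (y M)⁻¹).tsum_eq (fun x => ‖φ x 1‖ ^ p)
    have e0 : nrm p z0 = ∑' x, ‖φ x 0‖ ^ p := by
      unfold nrm
      simp only [Fin.sum_univ_one, hz0]
    have s0 : Summable fun x => ‖φ x 0‖ ^ p := by
      have := nrm_summable hp0 f0
      simpa only [Fin.sum_univ_one, hz0] using this
    have s1 : Summable fun x => ‖φ x 1‖ ^ p := by
      refine summable_of_finite_support (hφ.subset fun x hx => ?_)
      intro h
      apply hx
      have h' : φ x = 0 := h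
      simp [h', hp0.ne']
    rw [e0, e1, ← s0.tsum_add s1]
    unfold nrm
    simp only [Fin.sum_univ_two]
  have hV := nrm_V hp0 y M φ hφ z0 z1 (fun x => rfl) (fun x => rfl) f0 f1
  have hb := DS.beta_upper hp hp2 (win_tr hp0 M (fun s => y (M - 1 - s))) f0 f1 M le_rfl _
    (win_tr hp0 M (fun s => y (M - 1 - s))).one
  rw [hV, div_le_iff₀ (by positivity)]
  have hb' : nrm p (DS.ab (fun s => (tr (y (M - 1 - s)) : Vec G 1 →ₗ[ℂ] Vec G 1)) z0 z1 M).1 +
      nrm p (DS.ab (fun s => (tr (y (M - 1 - s)) : Vec G 1 →ₗ[ℂ] Vec G 1)) z0 z1 M).2 ≤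
      2 ^ (M + 1) * (nrm p z0 + nrm p z1) := hb
  rw [hsum] at hb'
  linarith

/-- real version of `Af` -/
def Ar (y : ℕ → G) (r : G → ℝ) : ℕ → G → ℝ
  | 0, x => r x
  | M + 1, x => Ar y r M x + Ar y r M (y M * x)

theorem Af_real (y : ℕ → G) (r : G → ℝ) (ψ : Vec G 2) (hψ : ∀ x, ψ x 0 = ((r x : ℝ) : ℂ))
    (M : ℕ) : ∀ x, Af y M ψ x 0 = ((Ar y r M x : ℝ) : ℂ) := by
  induction M with
  | zero => exact hψ
  | succ M ih =>
    intro x
    rw [Af_succ]
    show Af y M ψ x 0 + Af y M ψ (((y M)⁻¹)⁻¹ * x) 0 = _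
    rw [inv_inv, ih, ih]
    simp [Ar]

theorem Af_comp1 (y : ℕ → G) (ψ : Vec G 2) (hψ : ∀ x, ψ x 1 = 0) (M : ℕ) :
    ∀ x, Af y M ψ x 1 = 0 := by
  induction M with
  | zero => exact hψ
  | succ M ih =>
    intro x
    rw [Af_succ]
    show Af y M ψ x 1 + Af y M ψ (((y M)⁻¹)⁻¹ * x) 1 = _
    rw [inv_inv, ih, ih, add_zero]

theorem pr_congr (y : ℕ → G) (m : ℕ) (t s : ℕ → Fin 2) (h : ∀ k < m, t k = s k) :
    pr (lt y) m t = pr (lt y) m s := by
  induction m with
  | zero => rfl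
  | succ m ih =>
    rw [pr, pr, ih fun k hk => h k (by omega), h m (by omega)]

theorem Ar_ge (y : ℕ → G) (r : G → ℝ) (g : ℝ) : ∀ (M : ℕ) (x : G),
    (∀ t : ℕ → Fin 2, g ≤ r (pr (lt y) M t * x)) → 2 ^ M * g ≤ Ar y r M x
  | 0, x, h => by simpa [Ar, pr] using h (fun _ => 0)
  | M + 1, x, h => by
    have h0 : ∀ t : ℕ → Fin 2, g ≤ r (pr (lt y) M t * x) := fun t => by
      have := h (fun k => if k = M then 0 else t k)
      rw [pr, pr_congr y M _ t (fun k hk => by simp [hk.ne])] at this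
      simpa [lt] using this
    have h1 : ∀ t : ℕ → Fin 2, g ≤ r (pr (lt y) M t * (y M * x)) := fun t => by
      have := h (fun k => if k = M then 1 else t k)
      rw [pr, pr_congr y M _ t (fun k hk => by simp [hk.ne])] at this
      simpa [lt, mul_assoc] using this
    have i0 := Ar_ge y r g M x h0
    have i1 := Ar_ge y r g M (y M * x) h1
    rw [Ar, pow_succ]
    linarith

/-- the test vector `f^{1/p} e_0` -/
noncomputable def xi (p : ℝ) (f : G →₀ ℝ) : Vec G 2 :=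
  fun x j => if j = 0 then (((f x) ^ (1 / p) : ℝ) : ℂ) else 0

theorem fs_xi {p : ℝ} (hp : 0 < p) (f : G →₀ ℝ) : FS (xi p f) :=
  FS.of_subset f.finite_support fun x hx => by
    simp only [Function.mem_support, not_not] at hx
    funext j
    unfold xi
    have h : p⁻¹ ≠ 0 := by positivity
    simp [hx, Real.zero_rpow h]

theorem nrm_xi {p : ℝ} (hp : 0 < p) (f : G →₀ ℝ) (h0 : ∀ x, 0 ≤ f x)
    (h1 : (f.sum fun _ a => a) = 1) : nrm p (xi p f) = 1 := by
  unfold nrm xi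
  have e : ∀ x, ∑ i : Fin 2, ‖(if i = 0 then (((f x) ^ (1 / p) : ℝ) : ℂ) else 0)‖ ^ p = f x := by
    intro x
    rw [Fin.sum_univ_two]
    simp only [if_true, one_ne_zero, if_false, norm_zero, Real.zero_rpow hp.ne', add_zero]
    rw [Complex.norm_real, Real.norm_eq_abs, abs_of_nonneg (Real.rpow_nonneg (h0 x) _),
      ← Real.rpow_mul (h0 x), one_div_mul_cancel hp.ne', Real.rpow_one]
  simp only [e]
  rw [tsum_eq_sum (s := f.support) (fun x hx => by simpa using hx)]
  exact h1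

/-- extension of a choice below `M` -/
def ex (M : ℕ) (τ : Fin M → Fin 2) : ℕ → Fin 2 := fun k => if h : k < M then τ ⟨k, h⟩ else 0

/-- the lower bound for the adjoint of `D` on the test vector -/
theorem low {p : ℝ} (hp : 0 < p) (y : ℕ → G) (M : ℕ) (f : G →₀ ℝ) (h0 : ∀ x, 0 ≤ f x)
    (h1 : (f.sum fun _ a => a) = 1) (ε : ℝ) (hε : 2 ^ M * ε ≤ 1 / 2)
    (hf : ∀ t : ℕ → Fin 2, ∑' x, |f (pr (lt y) M t * x) - f x| ≤ ε) :
    ((2 : ℝ) ^ M) ^ p / 2 ≤ nrm p ((E0.comp (Af y M)) (xi p f)) := by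
  classical
  -- the pointwise lower bound
  set d : (Fin M → Fin 2) → G → ℝ := fun τ x => |f (pr (lt y) M (ex M τ) * x) - f x| with hd
  set g : G → ℝ := fun x => max 0 (f x - ∑ τ, d τ x) with hg
  have hg0 : ∀ x, 0 ≤ g x := fun x => le_max_left _ _
  have hgle : ∀ x (t : ℕ → Fin 2), g x ≤ f (pr (lt y) M t * x) := by
    intro x t
    refine max_le (h0 _) ?_
    have e : pr (lt y) M t = pr (lt y) M (ex M fun k => t k) :=
      pr_congr y M _ _ fun k hk => by simp [ex, hk]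
    have h2 : d (fun k => t k) x ≤ ∑ τ, d τ x :=
      Finset.single_le_sum (f := fun τ => d τ x) (fun τ _ => abs_nonneg _) (Finset.mem_univ _)
    have h3 : f x - f (pr (lt y) M t * x) ≤ d (fun k => t k) x := by
      simp only [hd]
      rw [← e, abs_sub_comm]
      exact le_abs_self _
    linarith
  have hfg : ∀ x, g x ≤ f x := fun x => by
    refine max_le (h0 x) ?_
    have : 0 ≤ ∑ τ, d τ x := Finset.sum_nonneg fun τ _ => abs_nonneg _
    linarith
  have hgs : Summable g := by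
    refine summable_of_finite_support (f.finite_support.subset fun x hx => ?_)
    intro h
    apply hx
    exact le_antisymm ((hfg x).trans_eq h) (hg0 x)
  have hfs : Summable fun x => f x := summable_of_finite_support f.finite_support
  have hft : ∑' x, f x = 1 := by
    rw [tsum_eq_sum (s := f.support) (fun x hx => by simpa using hx)]
    exact h1
  have hds : ∀ τ, Summable (d τ) := by
    intro τ
    have h2 : Summable fun x => f (pr (lt y) M (ex M τ) * x) :=
      (Equiv.mulLeft (pr (lt y) M (ex M τ))).summable_iff.2 hfs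
    exact (h2.sub hfs).abs
  have hgt : 1 / 2 ≤ ∑' x, g x := by
    have h2 : ∑' x, (f x - ∑ τ, d τ x) ≤ ∑' x, g x := by
      refine Summable.tsum_le_tsum (fun x => le_max_right _ _) (hfs.sub (summable_sum fun τ _ => hds τ)) hgs
    rw [hfs.tsum_sub (summable_sum fun τ _ => hds τ), Summable.tsum_finsetSum fun τ _ => hds τ,
      hft] at h2
    have h3 : ∑ τ : Fin M → Fin 2, ∑' x, d τ x ≤ ∑ _τ : Fin M → Fin 2, ε :=
      Finset.sum_le_sum fun τ _ => hf _
    rw [Finset.sum_const, Finset.card_univ, Fintype.card_fun, Fintype.card_fin, Fintype.card_fin,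
      nsmul_eq_mul] at h3
    push_cast at h3
    linarith
  -- conclusion
  have hr : ∀ x, xi p f x 0 = ((((f x) ^ (1 / p)) : ℝ) : ℂ) := fun x => by simp [xi]
  have hA := Af_real y (fun x => (f x) ^ (1 / p)) (xi p f) hr M
  have hge : ∀ x, 2 ^ M * (g x) ^ (1 / p) ≤ Ar y (fun x => (f x) ^ (1 / p)) M x := fun x =>
    Ar_ge y _ _ M x fun t => Real.rpow_le_rpow (hg0 x) (hgle x t) (by positivity)
  have hfsA : FS ((E0.comp (Af y M)) (xi p f)) := FS.E0 (FS.Af (fs_xi hp f) y M)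
  have hsum := nrm_summable hp hfsA
  have hterm : ∀ x, ((2 : ℝ) ^ M) ^ p * g x ≤ ∑ i, ‖(E0.comp (Af y M)) (xi p f) x i‖ ^ p := by
    intro x
    rw [Fin.sum_univ_two]
    have e0 : (E0.comp (Af y M)) (xi p f) x 0 = ((Ar y (fun x => (f x) ^ (1 / p)) M x : ℝ) : ℂ) := by
      rw [LinearMap.comp_apply, E0_apply, if_pos rfl, hA]
    have hpos : 0 ≤ 2 ^ M * (g x) ^ (1 / p) := mul_nonneg (by positivity) (Real.rpow_nonneg (hg0 x) _)
    have h4 : ((2 : ℝ) ^ M) ^ p * g x ≤ ‖(E0.comp (Af y M)) (xi p f) x 0‖ ^ p := by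
      rw [e0, Complex.norm_real, Real.norm_eq_abs, abs_of_nonneg (hpos.trans (hge x))]
      refine le_trans (le_of_eq ?_) (Real.rpow_le_rpow hpos (hge x) hp.le)
      rw [Real.mul_rpow (by positivity) (Real.rpow_nonneg (hg0 x) _), ← Real.rpow_mul (hg0 x),
        one_div_mul_cancel hp.ne', Real.rpow_one]
    have h5 : 0 ≤ ‖(E0.comp (Af y M)) (xi p f) x 1‖ ^ p := Real.rpow_nonneg (norm_nonneg _) _
    linarith
  have h6 : ∑' x, ((2 : ℝ) ^ M) ^ p * g x ≤ nrm p ((E0.comp (Af y M)) (xi p f)) :=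
    Summable.tsum_le_tsum hterm (hgs.mul_left _) hsum
  rw [tsum_mul_left] at h6
  have h7 : 0 ≤ ((2 : ℝ) ^ M) ^ p := by positivity
  nlinarith [mul_le_mul_of_nonneg_left hgt h7]

theorem sc_low {p : ℝ} (y : ℕ → G) (M : ℕ) (f : G →₀ ℝ) : SC ((E0.comp (Af y M)) (xi p f)) := by
  intro x i j hij
  by_cases hi : i = 0
  · right
    rw [LinearMap.comp_apply, E0_apply, if_neg]
    rintro rfl
    exact hij hi
  · left
    rw [LinearMap.comp_apply, E0_apply, if_neg hi]

end Pool.Agent.C1
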