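import Pool.Agent.Lib.MP_830418_an.C1.Low
import Pool.Agent.Lib.MP_830418_an.Flat.P_hold
import Pool.Agent.Lib.MP_830418_an.Flat.P_chain
import Pool.Agent.Lib.MP_830418_an.Flat.P_neu
import Pool.Agent.Lib.MP_830418_an.Flat.P_Vad1
import Pool.Agent.Lib.MP_830418_an.Flat.P_Vad
import Pool.Agent.Lib.MP_830418_an.Flat.P_low
import Pool.Agent.Lib.MP_830418_an.Flat.P_ext
import Pool.Agent.Lib.MP_830418_an.Flat.P_rep1
import Pool.Agent.Lib.MP_830418_an.Flat.P_rep2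

/-!
Problem MP_830418_an, Case A: `S_A` of the interface.
-/

open Finset

namespace Pool.Agent.C1

open Pool.Agent.PC Pool.Agent.PI

section

variable {G : Type} [Group G]

theorem rep_E0 : Rep (E0 : Vec G 2 →ₗ[ℂ] Vec G 2) E0 := by
  classical
  refine ⟨fun i j => if i = 0 ∧ j = 0 then Finsupp.single 1 1 else 0, fun φ x i => ?_,
    fun ψ x j => ?_⟩
  · rw [Fin.sum_univ_two, E0_apply]
    fin_cases i <;> simp
  · rw [Fin.sum_univ_two, E0_apply]
    fin_cases j <;> simp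

theorem rep_id (N : ℕ) : Rep (LinearMap.id : Vec G N →ₗ[ℂ] Vec G N) LinearMap.id := by
  have h := (p_rep1 G N).1 1
  have e : (tr (N := N) (1 : G)) = LinearMap.id := by
    apply LinearMap.ext
    intro φ
    funext x
    show φ (1⁻¹ * x) = φ x
    rw [inv_one, one_mul]
  rw [inv_one, e] at h
  exact h

theorem rep_Df (N : ℕ) (y : ℕ → G) (M : ℕ) : Rep (Df (N := N) y M) (Af y M) := by
  obtain ⟨htr, hR, hD, h0, hadd, hsm, hcomp⟩ := p_rep1 G N
  induction M with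
  | zero => exact rep_id N
  | succ M ih => exact hcomp _ _ _ _ ih (hadd _ _ _ _ (rep_id N) (htr (y M)))

theorem rep_Vop (N : ℕ) (u : Fin N → Fin N → ℂ) (c : ℕ → Fin N → G) (m : ℕ) :
    Rep (Vop u c m) (Vad u c m) := by
  obtain ⟨htr, hR, hD, h0, hadd, hsm, hcomp⟩ := p_rep1 G N
  induction m with
  | zero => exact rep_id N
  | succ m ih => exact hcomp _ _ _ _ ih (hR u (c m))

/-- the chain is given by matrices -/
theorem rep_chain (N : ℕ) (V Va D Da : Vec G N →ₗ[ℂ] Vec G N) (hV : Rep V Va) (hD : Rep D Da)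
    (lam : ℝ) (bs : List G) : Rep (Fop V D lam bs) (Fad Va Da lam bs) := by
  obtain ⟨htr, -, -, h0, hadd, hsm, hcomp⟩ := p_rep1 G N
  induction bs with
  | nil => exact h0
  | cons b bs ih =>
    have hA := hcomp _ _ _ _ hD (htr b)
    have hB := hcomp _ _ _ _ ih (hsm lam⁻¹ _ _ (hcomp _ _ _ _ hV (htr b)))
    have hC := hadd _ _ _ _ hA hB
    have e : (tr b⁻¹).comp Da +
        ((((lam⁻¹ : ℝ) : ℂ)) • ((tr b⁻¹).comp Va)).comp
          (Fad Va Da lam bs) = Fad Va Da lam (b :: bs) := by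
      show _ = (tr b⁻¹).comp (Da + ((lam : ℂ))⁻¹ • (Va.comp (Fad Va Da lam bs)))
      rw [LinearMap.comp_add, LinearMap.comp_smul, LinearMap.smul_comp, LinearMap.comp_assoc,
        Complex.ofReal_inv]
    rw [e] at hC
    have e' : D.comp (tr b) + (Fop V D lam bs).comp
        ((((lam⁻¹ : ℝ) : ℂ)) • (V.comp (tr b))) = Fop V D lam (b :: bs) := by
      rw [Complex.ofReal_inv]
      rfl
    rw [e'] at hC
    exact hC

end

/-- numbers -/
theorem num {p : ℝ} (hp : 1 < p) (hp2 : p < 2) (R : ℝ) (hR : 0 ≤ R) :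
    ∃ K M : ℕ, 1 ≤ K ∧
      2 * (R * ((K : ℝ) ^ (p - 1) * ((K : ℝ) * (2 ^ (p - 1) * 2 ^ M) +
        2 ^ (p - 1) * (DS.Cp p * ((2 : ℝ) ^ M) ^ p)))) < ((2 : ℝ) ^ M) ^ p / 2 * K := by
  have hC := DS.Cp_nonneg hp hp2
  set A : ℝ := 4 * R * 2 ^ (p - 1) * (1 + DS.Cp p) with hA
  have h2 : 0 < 2 - p := by linarith
  have h1 : 0 < p - 1 := by linarith
  have h21 : (0 : ℝ) < 2 ^ (p - 1) := Real.rpow_pos_of_pos two_pos _
  have hA0 : 0 ≤ A := by positivity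
  -- choose K with K^(2-p) > A
  have t1 : Filter.Tendsto (fun n : ℕ => ((n : ℝ)) ^ (2 - p)) Filter.atTop Filter.atTop :=
    (tendsto_rpow_atTop h2).comp tendsto_natCast_atTop_atTop
  obtain ⟨K, hK1, hK⟩ := ((Filter.eventually_ge_atTop 1).and (t1.eventually_gt_atTop A)).exists
  have t2 : Filter.Tendsto (fun n : ℕ => (((2 : ℝ) ^ n)) ^ (p - 1)) Filter.atTop Filter.atTop :=
    (tendsto_rpow_atTop h1).comp (tendsto_pow_atTop_atTop_of_one_lt one_lt_two)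
  obtain ⟨M, hM⟩ := (t2.eventually_ge_atTop (K : ℝ)).exists
  refine ⟨K, M, hK1, ?_⟩
  have hKr : (0 : ℝ) < K := by exact_mod_cast hK1
  set L : ℝ := (2 : ℝ) ^ M with hL
  have hL0 : 0 < L := by positivity
  have hLp : L ^ p = L ^ (p - 1) * L := by
    rw [← Real.rpow_add_one hL0.ne']
    congr 1
    ring
  have hLp0 : 0 < L ^ p := Real.rpow_pos_of_pos hL0 _
  have e1 : (K : ℝ) * L ≤ L ^ p := by
    rw [hLp]
    exact mul_le_mul_of_nonneg_right hM hL0.le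
  have hKK : (K : ℝ) = (K : ℝ) ^ (p - 1) * (K : ℝ) ^ (2 - p) := by
    rw [← Real.rpow_add hKr]
    conv_lhs => rw [← Real.rpow_one (K : ℝ)]
    congr 1
    ring
  have hKp : 0 < (K : ℝ) ^ (p - 1) := Real.rpow_pos_of_pos hKr _
  have e2 : (K : ℝ) * (2 ^ (p - 1) * L) + 2 ^ (p - 1) * (DS.Cp p * L ^ p) ≤
      2 ^ (p - 1) * (1 + DS.Cp p) * L ^ p := by
    nlinarith [mul_le_mul_of_nonneg_left e1 h21.le]
  have e3 : 2 * (R * ((K : ℝ) ^ (p - 1) * ((K : ℝ) * (2 ^ (p - 1) * L) +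
      2 ^ (p - 1) * (DS.Cp p * L ^ p)))) ≤
      2 * (R * ((K : ℝ) ^ (p - 1) * (2 ^ (p - 1) * (1 + DS.Cp p) * L ^ p))) := by
    refine mul_le_mul_of_nonneg_left ?_ two_pos.le
    refine mul_le_mul_of_nonneg_left ?_ hR
    exact mul_le_mul_of_nonneg_left e2 hKp.le
  refine e3.trans_lt ?_
  have e4 : 2 * (R * ((K : ℝ) ^ (p - 1) * (2 ^ (p - 1) * (1 + DS.Cp p) * L ^ p))) =
      A / 2 * ((K : ℝ) ^ (p - 1) * L ^ p) := by
    rw [hA]
    ring
  have e5 : L ^ p / 2 * K = (K : ℝ) ^ (2 - p) / 2 * ((K : ℝ) ^ (p - 1) * L ^ p) := by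
    conv_lhs => rw [hKK]
    ring
  rw [e4, e5]
  refine mul_lt_mul_of_pos_right ?_ (by positivity)
  linarith

/-- `S_A` of the interface -/
theorem t_A : S_A := by
  intro G _ hA p hp hp2 R hR
  classical
  have hp0 : 0 < p := by linarith
  obtain ⟨K, M, hK, hnum⟩ := num hp hp2 R hR
  have hKr : (1 : ℝ) ≤ K := by exact_mod_cast hK
  obtain ⟨y, f, hf0, hf1, hfi, hgen⟩ := hA (M + 1) (1 / (2 * 2 ^ M)) (by positivity)
  -- invariance under the words of length M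
  have hfi' : ∀ t : ℕ → Fin 2, ∑' x, |f (pr (lt y) M t * x) - f x| ≤ 1 / (2 * 2 ^ M) := by
    intro t
    have h := hfi (fun k => if k = M then 0 else t k)
    rw [pr, pr_congr y M _ t (fun k hk => by simp [hk.ne])] at h
    simpa [PI.lt] using h
  have hinf : Infinite G := by
    refine NonFC.infinite (hgen (fun _ => 0) (fun _ => 1) ⟨0, by omega, by decide⟩)
  have hsc := sc_low (p := p) y M f
  have hfsD : FS ((E0.comp (Af y M)) (xi p f)) := FS.E0 (FS.Af (fs_xi hp0 f) y M)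
  obtain ⟨bs, hbs, hlow⟩ := (p_low (p_Vad p_Vad1) p_neu) p hp0 G 2 (by norm_num) u2 had_u2 (lt y) (M + 1)
    (lam p M) (lam_pos p M) hgen (E0.comp (Af y M)) (xi p f) hfsD hsc K
  have hC0 := DS.Cp_nonneg hp hp2
  have h21 : (0 : ℝ) < 2 ^ (p - 1) := Real.rpow_pos_of_pos two_pos _
  set a : ℝ := 2 ^ (p - 1) * 2 ^ M with ha
  set b : ℝ := 2 ^ (p - 1) * (DS.Cp p * ((2 : ℝ) ^ M) ^ p) with hb
  have ha0 : 0 < a := by positivity
  have hb0 : 0 ≤ b := by positivity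
  have hchain := (p_chain p_hold) p hp G 2 (Vop u2 (lt y) (M + 1)) ((Df y M).comp E0) (lam p M)
    a b ha0.le hb0 (fun φ hφ => hφ.Vop u2 (lt y) (M + 1))
    (fun φ hφ => FS.Df (FS.E0 hφ) y M) (fun φ hφ => cube_le hp hp2 y M φ hφ)
    (fun φ hφ => cube hp hp2 y M φ hφ) bs
  rw [hbs] at hchain
  have hrep := rep_chain 2 _ _ _ _ (rep_Vop 2 u2 (lt y) (M + 1))
    ((p_rep1 G 2).2.2.2.2.2.2 _ _ _ _ (rep_Df 2 y M) rep_E0) (lam p M) bs
  have hCpos : 0 < (K : ℝ) ^ (p - 1) * ((K : ℝ) * a + b) := by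
    have : 0 < (K : ℝ) ^ (p - 1) := Real.rpow_pos_of_pos (by linarith) _
    positivity
  refine p_ext p hp G 2 _ _ hrep ((K : ℝ) ^ (p - 1) * ((K : ℝ) * a + b)) R hCpos hR hchain 0
    (xi p f) (fs_xi hp0 f) (fun x i hi => by simp [xi, hi]) ?_
  rw [hlow, nrm_xi hp0 f hf0 hf1, mul_one]
  have hratio : ((2 : ℕ) : ℝ) ^ (((M + 1 : ℕ) : ℝ) * (1 - p / 2)) / lam p M ^ p = 1 := by
    rw [lam_pow hp0, Real.rpow_mul (by norm_num), Real.rpow_natCast]
    push_cast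
    exact div_self (Real.rpow_pos_of_pos (by positivity) _).ne'
  rw [hratio]
  have hsum : ∑ k ∈ range K, (1 : ℝ) ^ k = K := by simp
  rw [hsum]
  have hD := low hp0 y M f hf0 hf1 (1 / (2 * 2 ^ M)) (by
    have : (2 : ℝ) ^ M ≠ 0 := by positivity
    field_simp
    norm_num) hfi'
  refine lt_of_lt_of_le ?_ (mul_le_mul_of_nonneg_right hD (by positivity))
  push_cast
  exact hnum

end Pool.Agent.C1
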